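import Mathlib

set_option autoImplicit false
set_option linter.unusedSectionVars false

namespace Pool.Agent.Results.MP_638395_nt.AllOddExponents

open Finset

/-- The rising factorial `(a)_k = a (a+1) ⋯ (a+k-1)`. -/
def rise (a : ℚ) (k : ℕ) : ℚ := ∏ i ∈ range k, (a + i)

/-- The sum `S_m(N)` of the problem. -/
def S (m N : ℕ) : ℚ :=
  ∑ k ∈ range (N + 1),
    (-1) ^ k * (4 * (k : ℚ) - 1) ^ m * (rise (-1 / 2) k ^ 3 / (k.factorial : ℚ) ^ 3)

/-- `x ≡ y (mod p^n)`: the difference is zero or has `p`-adic valuation at least `n`. -/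
def Cong (p n : ℕ) (x y : ℚ) : Prop := x - y = 0 ∨ (n : ℤ) ≤ padicValRat p (x - y)

/-- The integer `c` works for the exponent `m`: both congruences of the problem hold
for every odd prime `p` and every `r ≥ 1`. -/
def Works (m : ℕ) (c : ℤ) : Prop :=
  ∀ p : ℕ, p.Prime → p ≠ 2 → ∀ r : ℕ, 1 ≤ r →
    Cong p (r + 2) (S m ((p ^ r + 1) / 2)) (c * (p : ℚ) ^ r * (-1) ^ ((p - 1) * r / 2)) ∧
    Cong p (r + 2) (S m (p ^ r - 1)) (c * (p : ℚ) ^ r * (-1) ^ ((p - 1) * r / 2))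

/-! ### Divisibility of rationals by powers of `p` -/

/-- `x` is `p^n` times a `p`-integral rational. -/
def D (p n : ℕ) (x : ℚ) : Prop := ∃ u v : ℤ, ¬ (p : ℤ) ∣ v ∧ x * v = (p : ℚ) ^ n * u

section D
variable {p : ℕ} [hp : Fact p.Prime]

include hp

theorem pprime : Prime (p : ℤ) := Nat.prime_iff_prime_int.mp hp.out

theorem pne : (p : ℚ) ≠ 0 := by exact_mod_cast hp.out.ne_zero

theorem vne {v : ℤ} (h : ¬ (p : ℤ) ∣ v) : (v : ℚ) ≠ 0 := by
  intro h0
  apply h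
  have : v = 0 := by exact_mod_cast h0
  rw [this]; exact dvd_zero _

theorem D_int (z : ℤ) : D p 0 (z : ℚ) :=
  ⟨z, 1, fun h => (pprime (p := p)).not_isUnit (isUnit_of_dvd_one h), by simp⟩

theorem D_nat (z : ℕ) : D p 0 (z : ℚ) := by exact_mod_cast D_int (p := p) (z : ℤ)

theorem D_zero (n : ℕ) : D p n 0 :=
  ⟨0, 1, fun h => (pprime (p := p)).not_isUnit (isUnit_of_dvd_one h), by simp⟩

theorem D_pow (n : ℕ) : D p n ((p : ℚ) ^ n) :=
  ⟨1, 1, fun h => (pprime (p := p)).not_isUnit (isUnit_of_dvd_one h), by simp⟩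

theorem D_add {n : ℕ} {x y : ℚ} (hx : D p n x) (hy : D p n y) : D p n (x + y) := by
  obtain ⟨u, v, hv, h⟩ := hx
  obtain ⟨u', v', hv', h'⟩ := hy
  refine ⟨u * v' + u' * v, v * v', fun hd => ?_, ?_⟩
  · rcases (pprime (p := p)).dvd_or_dvd hd with h1 | h1
    · exact hv h1
    · exact hv' h1
  · push_cast
    linear_combination (v' : ℚ) * h + (v : ℚ) * h'

theorem D_mul {n m : ℕ} {x y : ℚ} (hx : D p n x) (hy : D p m y) : D p (n + m) (x * y) := by
  obtain ⟨u, v, hv, h⟩ := hx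
  obtain ⟨u', v', hv', h'⟩ := hy
  refine ⟨u * u', v * v', fun hd => ?_, ?_⟩
  · rcases (pprime (p := p)).dvd_or_dvd hd with h1 | h1
    · exact hv h1
    · exact hv' h1
  · push_cast
    rw [pow_add]
    linear_combination (y * v' : ℚ) * h + ((p : ℚ) ^ n * u : ℚ) * h'

theorem D_mul0 {n : ℕ} {x y : ℚ} (hx : D p n x) (hy : D p 0 y) : D p n (x * y) := by
  simpa using D_mul hx hy

theorem D_mul0' {n : ℕ} {x y : ℚ} (hx : D p 0 x) (hy : D p n y) : D p n (x * y) := by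
  simpa using D_mul hx hy

theorem D_neg {n : ℕ} {x : ℚ} (hx : D p n x) : D p n (-x) := by
  have := D_mul0' (D_int (p := p) (-1)) hx
  simpa using this

theorem D_sub {n : ℕ} {x y : ℚ} (hx : D p n x) (hy : D p n y) : D p n (x - y) := by
  rw [sub_eq_add_neg]; exact D_add hx (D_neg hy)

theorem D_mono {n m : ℕ} (h : n ≤ m) {x : ℚ} (hx : D p m x) : D p n x := by
  obtain ⟨u, v, hv, h1⟩ := hx
  obtain ⟨d, rfl⟩ := Nat.exists_eq_add_of_le h
  refine ⟨(p : ℤ) ^ d * u, v, hv, ?_⟩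
  push_cast
  rw [h1, pow_add]; ring

theorem D_cancel {n s : ℕ} {x : ℚ} (hx : D p (n + s) ((p : ℚ) ^ s * x)) : D p n x := by
  obtain ⟨u, v, hv, h1⟩ := hx
  refine ⟨u, v, hv, ?_⟩
  have h2 : (p : ℚ) ^ s ≠ 0 := pow_ne_zero _ (pne (p := p))
  apply mul_left_cancel₀ h2
  rw [pow_add] at h1
  linear_combination h1

theorem D_sum {ι : Type*} {n : ℕ} (s : Finset ι) (f : ι → ℚ) (h : ∀ i ∈ s, D p n (f i)) :
    D p n (∑ i ∈ s, f i) := by
  classical
  induction s using Finset.induction_on with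
  | empty => simpa using D_zero (p := p) n
  | insert a s ha ih =>
    rw [Finset.sum_insert ha]
    exact D_add (h a (Finset.mem_insert_self a s))
      (ih (fun i hi => h i (Finset.mem_insert_of_mem hi)))

theorem D_powr {x : ℚ} (h : D p 0 x) (n : ℕ) : D p 0 (x ^ n) := by
  induction n with
  | zero => simpa using D_nat (p := p) 1
  | succ n ih => rw [pow_succ]; exact D_mul0 ih h

/-- inverses of integers prime to `p` -/
theorem D_inv {v : ℤ} (hv : ¬ (p : ℤ) ∣ v) : D p 0 (1 / (v : ℚ)) :=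
  ⟨1, v, hv, by have := vne (p := p) hv; field_simp; simp⟩

theorem D_div {n : ℕ} {x : ℚ} (hx : D p n x) {v : ℤ} (hv : ¬ (p : ℤ) ∣ v) :
    D p n (x / (v : ℚ)) := by
  have := D_mul0 hx (D_inv (p := p) hv)
  rwa [mul_one_div] at this

/-- `p^s / d` is `p`-integral when `0 < d < p^(s+1)` -/
theorem D_pow_div {s d : ℕ} (hd : 0 < d) (hd2 : d < p ^ (s + 1)) :
    D p 0 ((p : ℚ) ^ s / (d : ℚ)) := by
  obtain ⟨t, d', hd', rfl⟩ := Nat.exists_eq_pow_mul_and_not_dvd hd.ne' p hp.out.ne_one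
  have ht : t ≤ s := by
    by_contra hlt
    push Not at hlt
    have h1 : p ^ (s + 1) ≤ p ^ t := Nat.pow_le_pow_right hp.out.pos hlt
    have h2 : 0 < d' := Nat.pos_of_ne_zero (fun h => by simp [h] at hd')
    have h3 : p ^ t ≤ p ^ t * d' := Nat.le_mul_of_pos_right _ h2
    omega
  obtain ⟨e, rfl⟩ := Nat.exists_eq_add_of_le ht
  have hd'' : ¬ (p : ℤ) ∣ ((d' : ℕ) : ℤ) := by
    intro h; exact hd' (by exact_mod_cast h)
  have h1 : D p 0 ((p : ℚ) ^ e / ((d' : ℤ) : ℚ)) :=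
    D_div (by have := D_powr (D_nat (p := p) p) e; simpa using this) hd''
  have h2 : (p : ℚ) ≠ 0 := pne (p := p)
  have h3 : ((d' : ℤ) : ℚ) ≠ 0 := vne (p := p) hd''
  convert h1 using 1
  push_cast at h3 ⊢
  rw [pow_add]
  field_simp

theorem D_to_val {n : ℕ} {x : ℚ} (hx : D p n x) : x = 0 ∨ (n : ℤ) ≤ padicValRat p x := by
  by_cases h0 : x = 0
  · exact Or.inl h0
  right
  obtain ⟨u, v, hv, h1⟩ := hx
  have hv0 := vne (p := p) hv
  have hu0 : (u : ℚ) ≠ 0 := by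
    intro hu
    rw [hu, mul_zero] at h1
    rcases mul_eq_zero.mp h1 with h | h
    · exact h0 h
    · exact hv0 h
  have h2 := congrArg (padicValRat p) h1
  rw [padicValRat.mul h0 hv0, padicValRat.mul (pow_ne_zero _ (pne (p := p))) hu0,
    padicValRat.pow, padicValRat.self hp.out.one_lt] at h2
  have h3 : padicValRat p (v : ℚ) = 0 := by
    rw [padicValRat.of_int]
    simp [padicValInt.eq_zero_of_not_dvd hv]
  have h4 : 0 ≤ padicValRat p (u : ℚ) := by
    rw [padicValRat.of_int]; exact Int.natCast_nonneg _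
  rw [h3] at h2
  linarith

end D

/-! ### Rising factorials and the binomials `g n x = (x)_n / n!`, `f n x = n!/(x)_{n+1}` -/

theorem rise_zero (x : ℚ) : rise x 0 = 1 := by simp [rise]

theorem rise_succ (x : ℚ) (n : ℕ) : rise x (n + 1) = rise x n * (x + n) := by
  simp [rise, prod_range_succ]

theorem rise_succ' (x : ℚ) (n : ℕ) : rise x (n + 1) = x * rise (x + 1) n := by
  simp only [rise]
  rw [prod_range_succ']
  rw [mul_comm]
  congr 1
  · simp
  · apply prod_congr rfl; intro i _; push_cast; ring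

theorem rise_add (x : ℚ) (m n : ℕ) : rise x (m + n) = rise x m * rise (x + m) n := by
  simp only [rise]
  rw [prod_range_add]
  congr 1
  apply prod_congr rfl; intro i _; push_cast; ring

theorem rise_pos {x : ℚ} (hx : 0 < x) (n : ℕ) : 0 < rise x n :=
  prod_pos fun i _ => by positivity

def g (n : ℕ) (x : ℚ) : ℚ := rise x n / (n.factorial : ℚ)

def f (n : ℕ) (x : ℚ) : ℚ := (n.factorial : ℚ) / rise x (n + 1)

theorem fact_ne (n : ℕ) : (n.factorial : ℚ) ≠ 0 := by exact_mod_cast n.factorial_ne_zero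

theorem f_step {x : ℚ} (hx : 0 < x) (n : ℕ) : f (n + 1) x = f n x - f n (x + 1) := by
  have h1 : rise x (n + 1) ≠ 0 := (rise_pos hx _).ne'
  have h2 : rise (x + 1) (n + 1) ≠ 0 := (rise_pos (by positivity) _).ne'
  have h3 : rise x (n + 2) ≠ 0 := (rise_pos hx _).ne'
  have e1 : rise x (n + 2) = rise x (n + 1) * (x + (n + 1 : ℕ)) := rise_succ x (n + 1)
  have e2 : rise x (n + 2) = x * rise (x + 1) (n + 1) := rise_succ' x (n + 1)
  simp only [f]
  rw [Nat.factorial_succ]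
  have h4 : x + (n + 1 : ℕ) ≠ 0 := by positivity
  have e3 : rise (x + 1) (n + 1) = rise x (n + 1) * (x + (n + 1 : ℕ)) / x := by
    rw [← e1, e2]; field_simp
  rw [e3, show n + 1 + 1 = n + 2 from rfl, e1]
  push_cast at h4 ⊢
  field_simp
  ring

theorem g_step (n : ℕ) (x : ℚ) : g (n + 1) (x + 1) = g (n + 1) x + g n (x + 1) := by
  simp only [g]
  rw [Nat.factorial_succ, rise_succ, rise_succ' x n]
  have := fact_ne n
  push_cast
  field_simp
  ring

theorem g_half (n : ℕ) : g n (1 / 2) = (Nat.centralBinom n : ℚ) / 4 ^ n := by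
  induction n with
  | zero => simp [g, rise]
  | succ n ih =>
    have h1 := Nat.succ_mul_centralBinom_succ n
    have h2 : ((n : ℚ) + 1) * (Nat.centralBinom (n + 1) : ℚ)
        = 2 * (2 * n + 1) * (Nat.centralBinom n : ℚ) := by exact_mod_cast h1
    simp only [g] at ih ⊢
    have hf := fact_ne n
    rw [rise_succ, Nat.factorial_succ]
    rw [div_eq_div_iff hf (by positivity)] at ih
    rw [div_eq_div_iff (by positivity) (by positivity)]
    push_cast
    rw [pow_succ]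
    linear_combination (((1:ℚ) / 2 + n) * 4) * ih - (n.factorial : ℚ) * h2

section D2
variable {p : ℕ} [hp : Fact p.Prime]

include hp

theorem not_dvd_four_pow (h2 : p ≠ 2) (n : ℕ) : ¬ (p : ℤ) ∣ 4 ^ n := by
  intro h
  have h3 := (pprime (p := p)).dvd_of_dvd_pow h
  have h4 : (p : ℤ) ∣ 2 ^ 2 := by simpa using h3
  have h5 := (pprime (p := p)).dvd_of_dvd_pow h4
  have h6 : p ∣ 2 := by exact_mod_cast h5
  exact h2 ((Nat.prime_dvd_prime_iff_eq hp.out Nat.prime_two).mp h6)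

theorem not_dvd_two (h2 : p ≠ 2) : ¬ (p : ℤ) ∣ 2 := by
  intro h5
  have h6 : p ∣ 2 := by exact_mod_cast h5
  exact h2 ((Nat.prime_dvd_prime_iff_eq hp.out Nat.prime_two).mp h6)

theorem D_half (h2 : p ≠ 2) {n : ℕ} {x : ℚ} (hx : D p n x) : D p n (x / 2) := by
  have := D_div hx (not_dvd_two (p := p) h2)
  simpa using this

theorem Dg_half (h2 : p ≠ 2) (n : ℕ) : D p 0 (g n (1 / 2)) := by
  rw [g_half]
  have := D_div (D_nat (p := p) (Nat.centralBinom n)) (not_dvd_four_pow (p := p) h2 n)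
  simpa using this

theorem Dg (h2 : p ≠ 2) (k : ℕ) : ∀ n : ℕ, D p 0 (g n ((k : ℚ) + 1 / 2)) := by
  induction k with
  | zero => intro n; simpa using Dg_half (p := p) h2 n
  | succ k ih =>
    intro n
    induction n with
    | zero => simpa [g, rise] using D_nat (p := p) 1
    | succ n ihn =>
      have e : (((k + 1 : ℕ) : ℚ) + 1 / 2) = ((k : ℚ) + 1 / 2) + 1 := by push_cast; ring
      rw [e] at ihn ⊢
      rw [g_step]
      exact D_add (ih (n + 1)) ihn

/-- the inverse binomials: at most `p^s` in the denominator -/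
theorem Df {s : ℕ} (n : ℕ) : ∀ x : ℚ, 0 < x →
    (∀ i : ℕ, i ≤ n → D p 0 ((p : ℚ) ^ s / (x + i))) → D p 0 ((p : ℚ) ^ s * f n x) := by
  induction n with
  | zero =>
    intro x hx h
    have := h 0 le_rfl
    have e : f 0 x = 1 / x := by simp [f, rise]
    rw [e, mul_one_div]
    simpa using this
  | succ n ih =>
    intro x hx h
    rw [f_step hx, mul_sub]
    refine D_sub (ih x hx (fun i hi => h i (by omega))) (ih (x + 1) (by positivity) ?_)
    intro i hi
    have := h (i + 1) (by omega)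
    have e : x + 1 + (i : ℚ) = x + ((i + 1 : ℕ) : ℚ) := by push_cast; ring
    rw [e]; exact this

/-- `f n j` for a natural number `j ≥ 1` with `j + n < p^(s+1)` -/
theorem Df_nat {s n j : ℕ} (hj : 0 < j) (h : j + n < p ^ (s + 1)) :
    D p 0 ((p : ℚ) ^ s * f n (j : ℚ)) := by
  apply Df n (j : ℚ) (by exact_mod_cast hj)
  intro i hi
  have := D_pow_div (p := p) (s := s) (d := j + i) (by omega) (by omega)
  push_cast at this
  exact this

/-- `f n (1/2)` with `2 n + 1 < p^(s+1)` -/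
theorem Df_half {s n : ℕ} (h : 2 * n + 1 < p ^ (s + 1)) :
    D p 0 ((p : ℚ) ^ s * f n (1 / 2)) := by
  apply Df n (1 / 2) (by norm_num)
  intro i hi
  have h1 := D_pow_div (p := p) (s := s) (d := 2 * i + 1) (by omega) (by omega)
  have h2 := D_mul0 h1 (D_nat (p := p) 2)
  have e : (p : ℚ) ^ s / (1 / 2 + i) = (p : ℚ) ^ s / ((2 * i + 1 : ℕ) : ℚ) * ((2 : ℕ) : ℚ) := by
    push_cast
    have : (2 * (i : ℚ) + 1) ≠ 0 := by positivity
    have : ((1 : ℚ) / 2 + i) ≠ 0 := by positivity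
    field_simp
    ring
  rw [e]; exact h2

omit hp in
/-- splitting off the middle factor -/
theorem g_split (x : ℚ) (j l : ℕ) :
    g (j + 1 + l) x = (x + j) * g j x * g l (x + j + 1) * f l ((j + 1 : ℕ) : ℚ) := by
  have e1 : rise x (j + 1 + l) = rise x j * (x + j) * rise (x + j + 1) l := by
    rw [rise_add, rise_succ]
    congr 2; push_cast; ring
  have e2 : rise (((j + 1 : ℕ) : ℚ)) (l + 1) * (j.factorial : ℚ)
      = ((j + 1 + l).factorial : ℚ) := by
    clear e1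
    induction l with
    | zero => rw [rise_succ, rise_zero, Nat.add_zero, Nat.factorial_succ]; push_cast; ring
    | succ l ih =>
      rw [rise_succ, show j + 1 + (l + 1) = (j + 1 + l) + 1 by ring, Nat.factorial_succ]
      push_cast at ih ⊢
      rw [← ih]; ring
  have hr : rise (((j + 1 : ℕ) : ℚ)) (l + 1) ≠ 0 := (rise_pos (by positivity) _).ne'
  simp only [g, f]
  rw [e1, ← e2]
  have h1 := fact_ne j
  have h2 := fact_ne l
  field_simp

end D2

/-! ### The WZ pair -/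

/-- `F(n,k)` -/
def F (n k : ℕ) : ℚ :=
  (-1) ^ (n + k) * (4 * n + 1) * rise (1 / 2) n ^ 2 * rise (1 / 2) (n + k) *
    (n.descFactorial k : ℚ) / ((n.factorial : ℚ) ^ 3 * rise (1 / 2) k ^ 2)

/-- `G(n+1,k+1)` -/
def G (n k : ℕ) : ℚ :=
  2 * (-1) ^ (n + k) * rise (1 / 2) (n + 1) ^ 2 * rise (1 / 2) (n + k + 1) *
    (n.descFactorial k : ℚ) / ((n.factorial : ℚ) ^ 3 * rise (1 / 2) (k + 1) ^ 2)

theorem half_pos' : (0 : ℚ) < 1 / 2 := by norm_num

theorem wz_zero (k : ℕ) : F 0 k - F 0 (k + 1) = G 0 k := by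
  cases k with
  | zero => simp [F, G, rise]; norm_num
  | succ k => simp [F, G]

theorem wz_succ (n k : ℕ) : F (n + 1) k - F (n + 1) (k + 1) = G (n + 1) k - G n k := by
  have hd : ((n : ℚ) + 1 - k) * ((n + 1).descFactorial k : ℚ)
      = ((n : ℚ) + 1) * (n.descFactorial k : ℚ) := by
    by_cases hk : k ≤ n + 1
    · have h := Nat.succ_descFactorial n k
      have h2 : (((n + 1 - k : ℕ) : ℚ)) * ((n + 1).descFactorial k : ℚ)
        = ((n : ℚ) + 1) * (n.descFactorial k : ℚ) := by exact_mod_cast h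
      rw [Nat.cast_sub hk] at h2
      push_cast at h2
      exact h2
    · rw [Nat.descFactorial_of_lt (by omega), Nat.descFactorial_of_lt (by omega)]
      simp
  have hd2 : ((n + 1).descFactorial (k + 1) : ℚ)
      = ((n : ℚ) + 1 - k) * ((n + 1).descFactorial k : ℚ) := by
    by_cases hk : k ≤ n + 1
    · rw [Nat.descFactorial_succ]
      rw [Nat.cast_mul, Nat.cast_sub hk]
      push_cast; ring
    · rw [Nat.descFactorial_of_lt (by omega), Nat.descFactorial_of_lt (by omega)]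
      simp
  have hn : (n : ℚ) + 1 ≠ 0 := by positivity
  have hd3 : (n.descFactorial k : ℚ)
      = ((n : ℚ) + 1 - k) * ((n + 1).descFactorial k : ℚ) / ((n : ℚ) + 1) := by
    rw [hd]; field_simp
  simp only [F, G]
  rw [hd2, hd3]
  have e1 : rise (1 / 2) (n + 1 + 1) = rise (1 / 2) (n + 1) * (1 / 2 + ((n + 1 : ℕ) : ℚ)) :=
    rise_succ _ _
  have e2 : rise (1 / 2) (n + 1 + k + 1)
      = rise (1 / 2) (n + 1 + k) * (1 / 2 + ((n + 1 + k : ℕ) : ℚ)) := rise_succ _ _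
  have e2' : rise (1 / 2) (n + 1 + (k + 1))
      = rise (1 / 2) (n + 1 + k) * (1 / 2 + ((n + 1 + k : ℕ) : ℚ)) := rise_succ _ _
  have e3 : rise (1 / 2) (k + 1) = rise (1 / 2) k * (1 / 2 + (k : ℚ)) := rise_succ _ _
  have e4 : rise (1 / 2) (n + k + 1) = rise (1 / 2) (n + 1 + k) := by
    congr 1; ring
  rw [e1, e2, e2', e3, e4, Nat.factorial_succ]
  rw [Nat.cast_mul]
  have h1 := fact_ne n
  have h2 : rise (1 / 2) k ≠ 0 := (rise_pos half_pos' k).ne'
  have h3 : ((1 : ℚ) / 2 + k) ≠ 0 := by positivity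
  generalize rise (1 / 2) k = c at *
  generalize rise (1 / 2) (n + 1 + k) = b at *
  generalize rise (1 / 2) (n + 1) = a at *
  generalize ((n + 1).descFactorial k : ℚ) = d at *
  generalize (n.factorial : ℚ) = q at *
  rw [show (-1 : ℚ) ^ (n + 1 + (k + 1)) = (-1) ^ (n + k) by ring,
    show (-1 : ℚ) ^ (n + 1 + k) = - (-1) ^ (n + k) by ring]
  generalize (-1 : ℚ) ^ (n + k) = sg
  push_cast
  have h3' : (1 + 2 * (k : ℚ)) ≠ 0 := by positivity
  field_simp
  ring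

theorem wz_sum (N k : ℕ) :
    ∑ n ∈ range (N + 1), F n k - ∑ n ∈ range (N + 1), F n (k + 1) = G N k := by
  induction N with
  | zero => simp [wz_zero]
  | succ N ih =>
    rw [sum_range_succ, sum_range_succ (fun n => F n (k + 1))]
    have := wz_succ N k
    linarith

theorem wz_total (N K : ℕ) :
    ∑ n ∈ range (N + 1), F n 0 = ∑ n ∈ range (N + 1), F n K + ∑ k ∈ range K, G N k := by
  induction K with
  | zero => simp
  | succ K ih =>
    rw [sum_range_succ (fun k => G N k), ih, ← wz_sum N K]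
    ring

theorem F_of_lt {n k : ℕ} (h : n < k) : F n k = 0 := by
  simp [F, Nat.descFactorial_of_lt h]

/-- the alternating sum with weight `4k+1` -/
def B (N : ℕ) : ℚ := ∑ k ∈ range (N + 1), (-1) ^ k * (4 * (k : ℚ) + 1) * g k (1 / 2) ^ 3

theorem B_eq (N : ℕ) : B N = ∑ n ∈ range (N + 1), F n 0 := by
  apply sum_congr rfl
  intro n _
  simp only [F, g]
  simp only [Nat.add_zero, Nat.descFactorial_zero, rise_zero]
  have := fact_ne n
  field_simp
  simp

/-! ### Polynomial reduction -/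

/-- the telescoping operator -/
def L (P : Polynomial ℤ) (x : ℤ) : ℤ :=
  (x - 1) ^ 3 * P.eval (x + 2) + (x + 1) ^ 3 * P.eval (x - 2)

theorem L_add (P Q : Polynomial ℤ) (x : ℤ) : L (P + Q) x = L P x + L Q x := by
  simp only [L, Polynomial.eval_add]; ring

theorem L_smul (c : ℤ) (P : Polynomial ℤ) (x : ℤ) :
    L (Polynomial.C c * P) x = c * L P x := by
  simp only [L, Polynomial.eval_mul, Polynomial.eval_C]; ring

/-- every odd power reduces to a multiple of `x` -/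
theorem reduce (j : ℕ) : ∃ (P : Polynomial ℤ) (e : ℤ), ∀ x : ℤ,
    2 * x ^ (2 * j + 1) = L P x + 2 * e * x := by
  induction j using Nat.strong_induction_on with
  | _ j ih =>
    rcases Nat.eq_zero_or_pos j with rfl | hj
    · exact ⟨0, 1, fun x => by simp [L]⟩
    obtain ⟨i, rfl⟩ := Nat.exists_eq_add_of_le' (show 1 ≤ j from hj)
    -- W = (X - 1)^3 (X + 2)^(2 i)
    set W : Polynomial ℤ := (Polynomial.X - Polynomial.C 1) ^ 3 *
      (Polynomial.X + Polynomial.C 2) ^ (2 * i) with hW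
    have hmon : W.Monic := by
      rw [hW]
      exact ((Polynomial.monic_X_sub_C (1 : ℤ)).pow 3).mul
        ((Polynomial.monic_X_add_C (2 : ℤ)).pow (2 * i))
    have hdeg : W.natDegree = 2 * i + 3 := by
      rw [hW, Polynomial.Monic.natDegree_mul ((Polynomial.monic_X_sub_C (1 : ℤ)).pow 3)
        ((Polynomial.monic_X_add_C (2 : ℤ)).pow (2 * i)),
        (Polynomial.monic_X_sub_C (1 : ℤ)).natDegree_pow,
        (Polynomial.monic_X_add_C (2 : ℤ)).natDegree_pow,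
        Polynomial.natDegree_X_sub_C, Polynomial.natDegree_X_add_C]
      ring
    have hL : ∀ x : ℤ, L (Polynomial.X ^ (2 * i)) x = W.eval x - W.eval (-x) := by
      intro x
      have h1 : (-x + 2) ^ (2 * i) = (x - 2) ^ (2 * i) := by
        rw [pow_mul, pow_mul]; congr 1; ring
      simp only [L, hW, Polynomial.eval_mul, Polynomial.eval_pow, Polynomial.eval_sub,
        Polynomial.eval_add, Polynomial.eval_X, Polynomial.eval_C]
      rw [h1]; ring
    have hev : ∀ x : ℤ, W.eval x - W.eval (-x)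
        = 2 * x ^ (2 * i + 3) + ∑ k ∈ range (i + 1), 2 * (W.coeff (2 * k + 1) * x ^ (2 * k + 1)) := by
      intro x
      rw [Polynomial.eval_eq_sum_range, Polynomial.eval_eq_sum_range, hdeg,
        ← sum_sub_distrib, sum_range_succ]
      have hlc : W.coeff (2 * i + 3) = 1 := by rw [← hdeg]; exact hmon
      rw [hlc]
      have hodd : (-x) ^ (2 * i + 3) = - x ^ (2 * i + 3) := by
        rw [show 2 * i + 3 = 2 * (i + 1) + 1 by ring, pow_succ, pow_mul, pow_succ (x), pow_mul]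
        ring
      rw [hodd]
      have hs : ∀ n : ℕ, ∑ k ∈ range (2 * n + 1), (W.coeff k * x ^ k - W.coeff k * (-x) ^ k)
          = ∑ k ∈ range n, 2 * (W.coeff (2 * k + 1) * x ^ (2 * k + 1)) := by
        intro n
        induction n with
        | zero => simp
        | succ n ihn =>
          rw [show 2 * (n + 1) + 1 = (2 * n + 1) + 1 + 1 by ring, sum_range_succ,
            sum_range_succ, ihn, sum_range_succ]
          have h1 : (-x) ^ (2 * n + 1) = - x ^ (2 * n + 1) := by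
            rw [pow_succ, pow_mul, pow_succ x, pow_mul]; ring
          have h2 : (-x) ^ (2 * n + 1 + 1) = x ^ (2 * n + 1 + 1) := by
            rw [show 2 * n + 1 + 1 = 2 * (n + 1) by ring, pow_mul, pow_mul]; ring
          rw [h1, h2]; ring
      rw [show 2 * i + 3 = 2 * (i + 1) + 1 by ring, hs (i + 1)]
      ring
    -- choose reductions of the lower odd powers
    have hch : ∀ n : ℕ, n ≤ i + 1 → ∃ (P : Polynomial ℤ) (e : ℤ), ∀ x : ℤ,
        ∑ k ∈ range n, 2 * (W.coeff (2 * k + 1) * x ^ (2 * k + 1)) = L P x + 2 * e * x := by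
      intro n
      induction n with
      | zero => intro _; exact ⟨0, 0, fun x => by simp [L]⟩
      | succ n ihn =>
        intro hn
        obtain ⟨P, e, h⟩ := ihn (by omega)
        obtain ⟨P', e', h'⟩ := ih n (by omega)
        refine ⟨P + Polynomial.C (W.coeff (2 * n + 1)) * P', e + W.coeff (2 * n + 1) * e', ?_⟩
        intro x
        rw [sum_range_succ, h x, L_add, L_smul]
        linear_combination (W.coeff (2 * n + 1)) * h' x
    obtain ⟨P, e, h⟩ := hch (i + 1) le_rfl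
    refine ⟨Polynomial.X ^ (2 * i) + Polynomial.C (-1) * P, -e, ?_⟩
    intro x
    rw [L_add, L_smul, hL x, hev x, h x, show 2 * (i + 1) + 1 = 2 * i + 3 by ring]
    ring

/-! ### From `S_m` to `B` -/

/-- `t_k` -/
def t (k : ℕ) : ℚ := (-1) ^ k * (rise (-1 / 2) k ^ 3 / (k.factorial : ℚ) ^ 3)

theorem t_succ (k : ℕ) : ((k : ℚ) + 1) ^ 3 * t (k + 1) = - ((k : ℚ) - 1 / 2) ^ 3 * t k := by
  simp only [t]
  rw [rise_succ, Nat.factorial_succ]
  have := fact_ne k
  have h : (k : ℚ) + 1 ≠ 0 := by positivity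
  push_cast
  field_simp
  ring

theorem S_eq (m N : ℕ) : S m N = ∑ k ∈ range (N + 1), (4 * (k : ℚ) - 1) ^ m * t k := by
  apply sum_congr rfl
  intro k _
  simp only [t]; ring

/-- telescoping -/
theorem tele (P : Polynomial ℤ) (N : ℕ) :
    ∑ k ∈ range (N + 1), (L P (4 * (k : ℤ) - 1) : ℚ) * t k
      = - 64 * (((N : ℚ) + 1) ^ 3 * ((P.eval (4 * (N : ℤ) + 1) : ℤ) : ℚ) * t (N + 1)) := by
  have key : ∀ k : ℕ, (L P (4 * (k : ℤ) - 1) : ℚ) * t k
      = - 64 * (((k : ℚ) + 1) ^ 3 * ((P.eval (4 * (k : ℤ) + 1) : ℤ) : ℚ) * t (k + 1))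
        + 64 * ((k : ℚ) ^ 3 * ((P.eval (4 * (k : ℤ) - 3) : ℤ) : ℚ) * t k) := by
    intro k
    have h := t_succ k
    simp only [L]
    rw [show 4 * (k : ℤ) - 1 + 2 = 4 * (k : ℤ) + 1 by ring,
      show 4 * (k : ℤ) - 1 - 2 = 4 * (k : ℤ) - 3 by ring]
    push_cast
    linear_combination (64 * ((P.eval (4 * (k : ℤ) + 1) : ℤ) : ℚ)) * h
  induction N with
  | zero =>
    rw [sum_range_one, key 0]; simp
  | succ N ih =>
    rw [sum_range_succ, ih, key (N + 1)]
    have e : 4 * ((N + 1 : ℕ) : ℤ) - 3 = 4 * (N : ℤ) + 1 := by push_cast; ring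
    rw [e]
    push_cast
    ring

theorem S_reduce {m : ℕ} {P : Polynomial ℤ} {e : ℤ}
    (h : ∀ x : ℤ, 2 * x ^ m = L P x + 2 * e * x) (N : ℕ) :
    S m N = e * S 1 N - 32 * (((N : ℚ) + 1) ^ 3 * ((P.eval (4 * (N : ℤ) + 1) : ℤ) : ℚ) * t (N + 1)) := by
  have h1 := tele P N
  rw [S_eq, S_eq]
  have h2 : ∀ k : ℕ, (4 * (k : ℚ) - 1) ^ m * t k
      = (1 / 2) * ((L P (4 * (k : ℤ) - 1) : ℚ) * t k) + e * ((4 * (k : ℚ) - 1) ^ 1 * t k) := by
    intro k
    have h3 := h (4 * (k : ℤ) - 1)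
    have h4 : 2 * (4 * (k : ℚ) - 1) ^ m
        = (L P (4 * (k : ℤ) - 1) : ℚ) + 2 * e * (4 * (k : ℚ) - 1) := by exact_mod_cast h3
    linear_combination (t k / 2) * h4
  rw [sum_congr rfl (fun k _ => h2 k), sum_add_distrib, ← mul_sum, ← mul_sum, h1]
  ring

/-- `(-1/2)_k = -(1/2)_k/(2k-1)` -/
theorem rise_neg_half (k : ℕ) : (2 * (k : ℚ) - 1) * rise (-1 / 2) k = - rise (1 / 2) k := by
  induction k with
  | zero => simp [rise]
  | succ k ih =>
    rw [rise_succ, rise_succ]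
    push_cast
    linear_combination ((1 : ℚ) / 2 + k) * ih

theorem two_k_ne (k : ℕ) : (2 * (k : ℚ) - 1) ≠ 0 := by
  intro h
  have h2 : (2 * (k : ℤ) - 1) = 0 := by exact_mod_cast h
  omega

theorem g_t (k : ℕ) : (-1) ^ k * g k (1 / 2) ^ 3 = - (2 * (k : ℚ) - 1) ^ 3 * t k := by
  have h := rise_neg_half k
  have h0 := fact_ne k
  simp only [g, t]
  have h2 : rise (1 / 2) k = - ((2 * (k : ℚ) - 1) * rise (-1 / 2) k) := by linarith
  rw [h2]
  field_simp

theorem S_one (N : ℕ) : S 1 N = - B N + 16 * N * (((N : ℚ) + 1) ^ 3 * t (N + 1)) := by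
  induction N with
  | zero => simp [S, B, rise, g]
  | succ N ih =>
    have e1 : S 1 (N + 1) = S 1 N + (4 * ((N + 1 : ℕ) : ℚ) - 1) * t (N + 1) := by
      rw [S_eq, S_eq, sum_range_succ]; ring
    have e2 : B (N + 1) = B N
        - (4 * ((N + 1 : ℕ) : ℚ) + 1) * (2 * ((N + 1 : ℕ) : ℚ) - 1) ^ 3 * t (N + 1) := by
      rw [B, B, sum_range_succ]
      have := g_t (N + 1)
      linear_combination (4 * ((N + 1 : ℕ) : ℚ) + 1) * this
    have e3 := t_succ (N + 1)
    rw [e1, e2, ih]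
    push_cast at e3 ⊢
    linear_combination (-16 * ((N : ℚ) + 1)) * e3

/-! ### The `p`-adic bounds -/

section bounds
variable {p : ℕ} [hp : Fact p.Prime]

include hp

theorem D_one_int {z : ℤ} {n : ℕ} (h : D p (n + 1) (z : ℚ)) : (p : ℤ) ∣ z := by
  obtain ⟨u, v, hv, h1⟩ := h
  have h2 : z * v = (p : ℤ) ^ (n + 1) * u := by exact_mod_cast h1
  have h3 : (p : ℤ) ∣ z * v := by
    rw [h2, pow_succ]
    exact ⟨(p : ℤ) ^ n * u, by ring⟩
  rcases (pprime (p := p)).dvd_or_dvd h3 with h4 | h4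
  · exact h4
  · exact absurd h4 hv

theorem D_prod_sub {n : ℕ} (N : ℕ) (a b : ℕ → ℚ) (ha : ∀ i < N, D p 0 (a i))
    (hb : ∀ i < N, D p 0 (b i)) (h : ∀ i < N, D p n (a i - b i)) :
    D p 0 (∏ i ∈ range N, a i) ∧ D p 0 (∏ i ∈ range N, b i) ∧
      D p n (∏ i ∈ range N, a i - ∏ i ∈ range N, b i) := by
  induction N with
  | zero => simpa using ⟨D_nat (p := p) 1, D_zero (p := p) n⟩
  | succ N ih =>
    obtain ⟨h1, h2, h3⟩ := ih (fun i hi => ha i (by omega)) (fun i hi => hb i (by omega))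
      (fun i hi => h i (by omega))
    rw [prod_range_succ, prod_range_succ]
    refine ⟨D_mul0 h1 (ha N (by omega)), D_mul0 h2 (hb N (by omega)), ?_⟩
    have e : (∏ i ∈ range N, a i) * a N - (∏ i ∈ range N, b i) * b N
        = (∏ i ∈ range N, a i - ∏ i ∈ range N, b i) * a N
          + (∏ i ∈ range N, b i) * (a N - b N) := by ring
    rw [e]
    exact D_add (D_mul0 h3 (ha N (by omega))) (D_mul0' h2 (h N (by omega)))

variable {K s : ℕ}

/-- a middle factor `M/2` gives one factor `p` -/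
theorem g_one (h2 : p ≠ 2) (hM : 2 * K + 1 = p ^ (s + 1)) {x : ℚ} {j l : ℕ}
    (hx : x + j = ((2 * K + 1 : ℕ) : ℚ) / 2) (hj : j + 1 + l < p ^ (s + 1))
    (h3 : D p 0 (g j x)) (h4 : D p 0 (g l (x + j + 1))) : D p 1 (g (j + 1 + l) x) := by
  apply D_cancel (p := p) (s := s)
  have hf : D p 0 ((p : ℚ) ^ s * f l ((j + 1 : ℕ) : ℚ)) :=
    Df_nat (p := p) (by omega) (by omega)
  have hP : D p (s + 1) (((2 * K + 1 : ℕ) : ℚ) / 2) := by
    apply D_half h2
    rw [hM]; push_cast; exact D_pow _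
  rw [g_split]
  have e : (p : ℚ) ^ s * ((x + j) * g j x * g l (x + j + 1) * f l ((j + 1 : ℕ) : ℚ))
      = (((2 * K + 1 : ℕ) : ℚ) / 2) * g j x * g l (x + j + 1)
        * ((p : ℚ) ^ s * f l ((j + 1 : ℕ) : ℚ)) := by rw [← hx]; ring
  rw [e, add_comm 1 s]
  exact D_mul0 (D_mul0 (D_mul0 hP h3) h4) hf

theorem g_shift_one (h2 : p ≠ 2) (hM : 2 * K + 1 = p ^ (s + 1)) {k n : ℕ} (hk : k < K)
    (hn : K ≤ n) (hn2 : n ≤ 2 * K) : D p 1 (g n (((k + 1 : ℕ) : ℚ) + 1 / 2)) := by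
  obtain ⟨j, rfl⟩ := Nat.exists_eq_add_of_le (show k + 1 ≤ K from hk)
  obtain ⟨l, rfl⟩ := Nat.exists_eq_add_of_le (show j + 1 ≤ n by omega)
  apply g_one (p := p) h2 hM
  · push_cast; ring
  · omega
  · exact Dg h2 _ _
  · have := Dg (p := p) h2 (k + 1 + j + 1) l
    have e : (((k + 1 : ℕ) : ℚ) + 1 / 2) + j + 1 = ((k + 1 + j + 1 : ℕ) : ℚ) + 1 / 2 := by
      push_cast; ring
    rw [e]; exact this

theorem g_half_one (h2 : p ≠ 2) (hM : 2 * K + 1 = p ^ (s + 1)) {n : ℕ}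
    (hn : K < n) (hn2 : n ≤ 2 * K) : D p 1 (g n (1 / 2)) := by
  obtain ⟨l, rfl⟩ := Nat.exists_eq_add_of_le (show K + 1 ≤ n from hn)
  apply g_one (p := p) h2 hM
  · push_cast; ring
  · omega
  · exact Dg_half h2 _
  · have := Dg (p := p) h2 (K + 1) l
    have e : ((1 : ℚ) / 2) + K + 1 = ((K + 1 : ℕ) : ℚ) + 1 / 2 := by
      push_cast; ring
    rw [e]; exact this

omit hp in
theorem G_form (N k : ℕ) : G N k = (rise (1 / 2) (N + 1) / (N.factorial : ℚ)) ^ 2 *
    g N (((k + 1 : ℕ) : ℚ) + 1 / 2) * ((2 * (-1) ^ (N + k) * (N.choose k : ℤ) : ℤ) : ℚ)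
    * f k (1 / 2) := by
  have e1 : rise (1 / 2) (N + k + 1)
      = rise (1 / 2) (k + 1) * rise (((k + 1 : ℕ) : ℚ) + 1 / 2) N := by
    rw [show N + k + 1 = (k + 1) + N by ring, rise_add, add_comm (1 / 2 : ℚ)]
  simp only [G, g, f]
  rw [e1, Nat.descFactorial_eq_factorial_mul_choose]
  have h1 := fact_ne N
  have h2 := fact_ne k
  have h3 : rise (1 / 2) (k + 1) ≠ 0 := (rise_pos half_pos' _).ne'
  push_cast
  field_simp

theorem G_bound (h2 : p ≠ 2) (hM : 2 * K + 1 = p ^ (s + 1)) {N k : ℕ} (hk : k < K)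
    (ha : D p (s + 1) (rise (1 / 2) (N + 1) / (N.factorial : ℚ)))
    (hN : K ≤ N) (hN2 : N ≤ 2 * K) : D p (s + 3) (G N k) := by
  apply D_cancel (p := p) (s := s)
  have hg := g_shift_one (p := p) h2 hM hk hN hN2
  have hf : D p 0 ((p : ℚ) ^ s * f k (1 / 2)) := Df_half (by omega)
  rw [G_form]
  have e : (p : ℚ) ^ s * ((rise (1 / 2) (N + 1) / (N.factorial : ℚ)) ^ 2 *
    g N (((k + 1 : ℕ) : ℚ) + 1 / 2) * ((2 * (-1) ^ (N + k) * (N.choose k : ℤ) : ℤ) : ℚ)
    * f k (1 / 2)) = (rise (1 / 2) (N + 1) / (N.factorial : ℚ)) *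
    (rise (1 / 2) (N + 1) / (N.factorial : ℚ)) *
    g N (((k + 1 : ℕ) : ℚ) + 1 / 2) * ((2 * (-1) ^ (N + k) * (N.choose k : ℤ) : ℤ) : ℚ)
    * ((p : ℚ) ^ s * f k (1 / 2)) := by ring
  rw [e, show s + 3 + s = (s + 1) + (s + 1) + 1 by ring]
  exact D_mul0 (D_mul0 (D_mul (D_mul ha ha) hg) (D_int _)) hf

theorem a_bound1 (h2 : p ≠ 2) (hM : 2 * K + 1 = p ^ (s + 1)) :
    D p (s + 1) (rise (1 / 2) (K + 1) / (K.factorial : ℚ)) := by
  have e : rise (1 / 2) (K + 1) / (K.factorial : ℚ)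
      = g K (1 / 2) * (((2 * K + 1 : ℕ) : ℚ) / 2) := by
    rw [rise_succ]; simp only [g]; push_cast; ring
  rw [e]
  apply D_mul0' (Dg_half h2 K)
  apply D_half h2
  rw [hM]; push_cast; exact D_pow _

theorem a_bound2 (h2 : p ≠ 2) (hM : 2 * K + 1 = p ^ (s + 1)) :
    D p (s + 1) (rise (1 / 2) (2 * K + 1) / ((2 * K).factorial : ℚ)) := by
  have e : rise (1 / 2) (2 * K + 1) / ((2 * K).factorial : ℚ)
      = g (2 * K + 1) (1 / 2) * (((2 * K + 1 : ℕ) : ℚ)) := by
    simp only [g]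
    rw [Nat.factorial_succ]
    have := fact_ne (2 * K)
    push_cast
    have h : (2 * (K : ℚ) + 1) ≠ 0 := by positivity
    field_simp
  rw [e]
  apply D_mul0' (Dg_half h2 _)
  rw [hM]; push_cast; exact D_pow _

theorem not_dvd_K (hM : 2 * K + 1 = p ^ (s + 1)) : ¬ (p : ℤ) ∣ (K : ℤ) := by
  intro h
  have h1 : (p : ℤ) ∣ 2 * K + 1 := by
    have : (2 * (K : ℤ) + 1) = (p : ℤ) ^ (s + 1) := by exact_mod_cast hM
    rw [this, pow_succ]; exact dvd_mul_left _ _
  have h3 : (p : ℤ) ∣ 1 := by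
    have h4 := dvd_sub h1 (h.mul_left 2)
    simpa using h4
  exact (pprime (p := p)).not_isUnit (isUnit_of_dvd_one h3)

theorem not_dvd_K1 (hM : 2 * K + 1 = p ^ (s + 1)) : ¬ (p : ℤ) ∣ (K : ℤ) + 1 := by
  intro h
  have h1 : (p : ℤ) ∣ 2 * K + 1 := by
    have : (2 * (K : ℤ) + 1) = (p : ℤ) ^ (s + 1) := by exact_mod_cast hM
    rw [this, pow_succ]; exact dvd_mul_left _ _
  have h3 : (p : ℤ) ∣ 1 := by
    have h4 := dvd_sub (h.mul_left 2) h1
    have e : 2 * ((K : ℤ) + 1) - (2 * K + 1) = 1 := by ring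
    rwa [e] at h4
  exact (pprime (p := p)).not_isUnit (isUnit_of_dvd_one h3)

theorem D_M (hM : 2 * K + 1 = p ^ (s + 1)) : D p (s + 1) (2 * (K : ℚ) + 1) := by
  have : (2 * (K : ℚ) + 1) = (p : ℚ) ^ (s + 1) := by exact_mod_cast hM
  rw [this]; exact D_pow _

theorem D_M_div (hM : 2 * K + 1 = p ^ (s + 1)) {i : ℕ} (hi : i < K) :
    D p 1 ((2 * (K : ℚ) + 1) / ((i : ℚ) + 1)) := by
  have : (2 * (K : ℚ) + 1) = (p : ℚ) ^ (s + 1) := by exact_mod_cast hM
  have h1 := D_pow_div (p := p) (s := s) (d := i + 1) (by omega) (by omega)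
  have h2 := D_mul0 (D_pow (p := p) 1) h1
  rw [this, pow_succ]
  convert h2 using 1
  push_cast; ring

omit hp in
theorem choose_prod (K n : ℕ) (hn : n ≤ 2 * K) : (((2 * K).choose n : ℕ) : ℚ)
    = (-1) ^ n * ∏ i ∈ range n, (1 - (2 * (K : ℚ) + 1) / ((i : ℚ) + 1)) := by
  induction n with
  | zero => simp
  | succ n ih =>
    have h := Nat.choose_succ_right_eq (2 * K) n
    have h1 : (((2 * K).choose (n + 1) : ℕ) : ℚ) * ((n : ℚ) + 1)
        = (((2 * K).choose n : ℕ) : ℚ) * ((2 * K - n : ℕ) : ℚ) := by exact_mod_cast h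
    rw [Nat.cast_sub (by omega)] at h1
    rw [prod_range_succ]
    have h2 : (n : ℚ) + 1 ≠ 0 := by positivity
    have h3 := ih (by omega)
    rw [h3] at h1
    apply mul_right_cancel₀ h2
    rw [h1]
    push_cast
    field_simp
    ring

omit hp in
theorem half_prod (K : ℕ) : g K (1 / 2)
    = (-1) ^ K * ∏ i ∈ range K, (1 - (2 * (K : ℚ) + 1) / (2 * ((i : ℚ) + 1))) := by
  have h1 : (K.factorial : ℚ) = ∏ i ∈ range K, ((i : ℚ) + 1) := by
    have := Finset.prod_range_add_one_eq_factorial K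
    rw [← this]; push_cast; rfl
  have h2 : rise (1 / 2) K = ∏ i ∈ range K, ((K : ℚ) - 1 / 2 - i) := by
    rw [rise, ← prod_range_reflect]
    apply prod_congr rfl
    intro i hi
    rw [mem_range] at hi
    rw [Nat.cast_sub (by omega), Nat.cast_sub (by omega)]
    push_cast; ring
  have h3 : ((-1 : ℚ)) ^ K = ∏ i ∈ range K, (-1 : ℚ) := by simp
  rw [g, h1, h2, h3, ← prod_div_distrib, ← prod_mul_distrib]
  apply prod_congr rfl
  intro i _
  have : (i : ℚ) + 1 ≠ 0 := by positivity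
  field_simp
  ring

/-- `(-1)^K C(2K,K) ≡ 1 (mod p)` -/
theorem central_unit (hM : 2 * K + 1 = p ^ (s + 1)) :
    ¬ (p : ℤ) ∣ (Nat.centralBinom K : ℤ) := by
  intro hd
  have h := D_prod_sub (p := p) (n := 1) K
    (fun i => 1 - (2 * (K : ℚ) + 1) / ((i : ℚ) + 1)) (fun _ => 1)
    (fun i hi => D_sub (by simpa using D_nat (p := p) 1) (D_mono (by omega) (D_M_div hM hi)))
    (fun i hi => by simpa using D_nat (p := p) 1)
    (fun i hi => by
      have := D_neg (D_M_div (p := p) hM hi)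
      have e : (1 : ℚ) - (2 * (K : ℚ) + 1) / ((i : ℚ) + 1) - 1
        = - ((2 * (K : ℚ) + 1) / ((i : ℚ) + 1)) := by ring
      rw [e]; exact this)
  have h1 := h.2.2
  have h2 := choose_prod K K (by omega)
  have h3 : ∏ i ∈ range K, (1 - (2 * (K : ℚ) + 1) / ((i : ℚ) + 1))
      = (((-1) ^ K * (Nat.centralBinom K : ℤ) : ℤ) : ℚ) := by
    rw [Nat.centralBinom_eq_two_mul_choose]
    push_cast
    rw [h2, ← mul_assoc, ← mul_pow]; simp
  simp only [prod_const_one] at h1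
  rw [h3] at h1
  have h4 : D p (0 + 1) ((((-1) ^ K * (Nat.centralBinom K : ℤ) - 1 : ℤ)) : ℚ) := by
    push_cast at h1 ⊢; exact h1
  have h5 := D_one_int h4
  have h6 : (p : ℤ) ∣ 1 := by
    have := dvd_sub (hd.mul_left ((-1) ^ K)) h5
    simpa using this
  exact (pprime (p := p)).not_isUnit (isUnit_of_dvd_one h6)

/-- a form of Morley's congruence modulo `p^2`, for prime powers -/
theorem morley (h2 : p ≠ 2) (hM : 2 * K + 1 = p ^ (s + 1)) :
    D p 2 ((Nat.centralBinom K : ℚ) / 16 ^ K - (-1) ^ K) := by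
  have hc := central_unit (p := p) hM
  have h := D_prod_sub (p := p) (n := 2) K
    (fun i => (1 - (2 * (K : ℚ) + 1) / (2 * ((i : ℚ) + 1))) ^ 2)
    (fun i => 1 - (2 * (K : ℚ) + 1) / ((i : ℚ) + 1))
    (fun i hi => by
      have e : (2 * (K : ℚ) + 1) / (2 * ((i : ℚ) + 1))
        = ((2 * (K : ℚ) + 1) / ((i : ℚ) + 1)) / 2 := by
          have : (i : ℚ) + 1 ≠ 0 := by positivity
          field_simp
      apply D_powr
      rw [e]
      exact D_sub (by simpa using D_nat (p := p) 1)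
        (D_half h2 (D_mono (by omega) (D_M_div hM hi))))
    (fun i hi => D_sub (by simpa using D_nat (p := p) 1) (D_mono (by omega) (D_M_div hM hi)))
    (fun i hi => by
      have hh := D_half h2 (D_M_div (p := p) hM hi)
      have hq := D_mul hh hh
      have e : (1 - (2 * (K : ℚ) + 1) / (2 * ((i : ℚ) + 1))) ^ 2
          - (1 - (2 * (K : ℚ) + 1) / ((i : ℚ) + 1))
        = ((2 * (K : ℚ) + 1) / ((i : ℚ) + 1) / 2) * ((2 * (K : ℚ) + 1) / ((i : ℚ) + 1) / 2) := by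
          have : (i : ℚ) + 1 ≠ 0 := by positivity
          field_simp
          ring
      rw [e]; exact hq)
  have h1 := h.2.2
  have e1 := choose_prod K K (by omega)
  have e2 := half_prod K
  rw [prod_pow] at h1
  have s1 : ((-1 : ℚ) ^ K) * (-1) ^ K = 1 := by rw [← mul_pow]; simp
  have e3 : ∏ i ∈ range K, (1 - (2 * (K : ℚ) + 1) / (2 * ((i : ℚ) + 1)))
      = (-1) ^ K * g K (1 / 2) := by rw [e2, ← mul_assoc, s1, one_mul]
  have e4 : ∏ i ∈ range K, (1 - (2 * (K : ℚ) + 1) / ((i : ℚ) + 1))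
      = (-1) ^ K * (Nat.centralBinom K : ℚ) := by
    rw [Nat.centralBinom_eq_two_mul_choose, e1, ← mul_assoc, s1, one_mul]
  rw [e3, e4, g_half] at h1
  have h3 := D_div h1 hc
  have hc0 : (Nat.centralBinom K : ℚ) ≠ 0 := by
    exact_mod_cast Nat.centralBinom_ne_zero K
  convert h3 using 1
  push_cast
  have s2 : ((-1 : ℚ) ^ K) ^ 2 = 1 := by rw [← pow_mul, mul_comm, pow_mul]; simp
  have e16 : (16 : ℚ) ^ K = 4 ^ K * 4 ^ K := by rw [← mul_pow]; norm_num
  rw [e16]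
  field_simp
  linear_combination (-(Nat.centralBinom K : ℚ)) * s1

theorem central_M (hM : 2 * K + 1 = p ^ (s + 1)) :
    D p 2 ((Nat.centralBinom (2 * K + 1) : ℚ) - 2) := by
  have h := Nat.sum_range_choose_sq (2 * K + 1)
  have h1 : (Nat.centralBinom (2 * K + 1) : ℚ) - 2
      = ∑ i ∈ range (2 * K), (((2 * K + 1).choose (i + 1) : ℕ) : ℚ) ^ 2 := by
    rw [Nat.centralBinom_eq_two_mul_choose, ← h, sum_range_succ, sum_range_succ']
    push_cast
    simp
    ring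
  rw [h1]
  apply D_sum
  intro i hi
  rw [mem_range] at hi
  have h2 : p ∣ (2 * K + 1).choose (i + 1) := by
    rw [hM]
    exact hp.out.dvd_choose_pow (by omega) (by omega)
  obtain ⟨c, hc⟩ := h2
  rw [hc]
  have := D_mul0 (D_pow (p := p) 2) (D_nat (p := p) (c ^ 2))
  convert this using 1
  push_cast; ring

omit hp in
theorem F_KK (K : ℕ) : F K K
    = (2 * (K : ℚ) + 1) * ((Nat.centralBinom (2 * K + 1) : ℚ) / 2
      * ((Nat.centralBinom K : ℚ) / 16 ^ K)) := by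
  have h1 := Nat.succ_mul_centralBinom_succ (2 * K)
  have h2 : (2 * (K : ℚ) + 1) * (Nat.centralBinom (2 * K + 1) : ℚ)
      = 2 * (2 * (2 * K) + 1) * (Nat.centralBinom (2 * K) : ℚ) := by exact_mod_cast h1
  have h3 := g_half (2 * K)
  have h4 : ((2 * K).factorial : ℚ) = (Nat.centralBinom K : ℚ) * (K.factorial : ℚ) ^ 2 := by
    rw [Nat.centralBinom_eq_two_mul_choose]
    have := Nat.choose_mul_factorial_mul_factorial (show K ≤ 2 * K by omega)
    rw [show 2 * K - K = K by omega] at this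
    rw [← this]; push_cast; ring
  have h0 := fact_ne (2 * K)
  have h0' := fact_ne K
  have hr : rise (1 / 2) K ≠ 0 := (rise_pos half_pos' _).ne'
  simp only [g] at h3
  rw [div_eq_div_iff h0 (by positivity)] at h3
  simp only [F]
  rw [← two_mul, Nat.descFactorial_self]
  have s1 : (-1 : ℚ) ^ (2 * K) = 1 := by rw [pow_mul]; simp
  have e16 : (4 : ℚ) ^ (2 * K) = 16 ^ K := by rw [pow_mul]; norm_num
  rw [e16] at h3
  have h3' : rise (1 / 2) (2 * K)
      = (Nat.centralBinom (2 * K) : ℚ) * ((Nat.centralBinom K : ℚ) * (K.factorial : ℚ) ^ 2)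
        / 16 ^ K := by
    rw [← h4, ← h3]
    field_simp
  rw [s1, h3']
  field_simp
  linear_combination (-1 : ℚ) * (Nat.centralBinom K : ℚ) * h2

theorem F_KK_bound (h2 : p ≠ 2) (hM : 2 * K + 1 = p ^ (s + 1)) :
    D p (s + 3) (F K K - (-1) ^ K * (2 * (K : ℚ) + 1)) := by
  have h1 := morley (p := p) h2 hM
  have h3 := D_half h2 (central_M (p := p) hM)
  have h4 : D p 0 ((Nat.centralBinom K : ℚ) / 16 ^ K) := by
    have := D_add (D_mono (show 0 ≤ 2 by omega) h1) (D_int (p := p) ((-1) ^ K))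
    convert this using 1
    push_cast; ring
  rw [F_KK]
  have e : (2 * (K : ℚ) + 1) * ((Nat.centralBinom (2 * K + 1) : ℚ) / 2
      * ((Nat.centralBinom K : ℚ) / 16 ^ K)) - (-1) ^ K * (2 * (K : ℚ) + 1)
      = (2 * (K : ℚ) + 1) * ((((Nat.centralBinom (2 * K + 1) : ℚ) - 2) / 2)
        * ((Nat.centralBinom K : ℚ) / 16 ^ K)
        + ((Nat.centralBinom K : ℚ) / 16 ^ K - (-1) ^ K)) := by ring
  rw [e, show s + 3 = (s + 1) + 2 by ring]
  exact D_mul (D_M hM) (D_add (D_mul0 h3 h4) h1)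

theorem F_bound (h2 : p ≠ 2) (hM : 2 * K + 1 = p ^ (s + 1)) {n : ℕ} (hn : K < n)
    (hn2 : n ≤ 2 * K) : D p (s + 3) (F n K) := by
  have hK0 : K ≠ 0 := by rintro rfl; omega
  obtain ⟨k, rfl⟩ := Nat.exists_eq_succ_of_ne_zero hK0
  obtain ⟨n, rfl⟩ := Nat.exists_eq_succ_of_ne_zero (show n ≠ 0 by omega)
  simp only [Nat.succ_eq_add_one] at *
  have hg := g_half_one (p := p) h2 hM hn hn2
  have hcu := central_unit (p := p) hM
  have hKu := not_dvd_K (p := p) hM
  -- the formula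
  have e1 : rise (1 / 2) (n + 1 + (k + 1)) = rise (1 / 2) (k + 1) *
      ((1 / 2 + ((k + 1 : ℕ) : ℚ)) * rise (((k + 1 + 1 : ℕ) : ℚ) + 1 / 2) n) := by
    rw [show n + 1 + (k + 1) = (k + 1) + (n + 1) by ring, rise_add,
      rise_succ' (1 / 2 + ((k + 1 : ℕ) : ℚ)) n]
    congr 3
    push_cast; ring
  have e2 : (((n + 1).choose (k + 1) : ℕ) : ℚ) * ((k : ℚ) + 1)
      = ((n : ℚ) + 1) * ((n.choose k : ℕ) : ℚ) := by
    have := Nat.add_one_mul_choose_eq n k
    exact_mod_cast this.symm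
  have e3 : rise (1 / 2) (k + 1)
      = (Nat.centralBinom (k + 1) : ℚ) / 4 ^ (k + 1) * ((k + 1).factorial : ℚ) := by
    rw [← g_half]; simp only [g]
    have := fact_ne (k + 1)
    field_simp
  have hc0 : (Nat.centralBinom (k + 1) : ℚ) ≠ 0 := by
    exact_mod_cast Nat.centralBinom_ne_zero (k + 1)
  have hform : F (n + 1) (k + 1) = g (n + 1) (1 / 2) * g (n + 1) (1 / 2) *
      (((2 * ((k + 1 : ℕ) : ℚ) + 1) / 2) * g n (((k + 1 + 1 : ℕ) : ℚ) + 1 / 2)
      * (((-1) ^ (n + 1 + (k + 1)) * (4 * ((n + 1 : ℕ) : ℤ) + 1) * ((n.choose k : ℕ) : ℤ)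
        * 4 ^ (k + 1) : ℤ) : ℚ))
      / (((k + 1 : ℕ) : ℤ) : ℚ) / ((Nat.centralBinom (k + 1) : ℤ) : ℚ) := by
    have e4 : (((n + 1).choose (k + 1) : ℕ) : ℚ)
        = ((n : ℚ) + 1) * ((n.choose k : ℕ) : ℚ) / ((k : ℚ) + 1) := by
      rw [← e2]
      have : (k : ℚ) + 1 ≠ 0 := by positivity
      field_simp
    simp only [F, g]
    rw [e1, Nat.descFactorial_eq_factorial_mul_choose, Nat.cast_mul, e4]
    have hr : rise (1 / 2) (k + 1) ≠ 0 := (rise_pos half_pos' _).ne'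
    have h1 := fact_ne n
    have h3 := fact_ne (k + 1)
    have h5 : (k : ℚ) + 1 ≠ 0 := by positivity
    have h6 : (n : ℚ) + 1 ≠ 0 := by positivity
    rw [e3, Nat.factorial_succ n, Nat.cast_mul]
    push_cast
    field_simp
    ring
  rw [hform]
  apply D_div _ hcu
  apply D_div _ hKu
  rw [show s + 3 = 1 + 1 + (s + 1) by ring]
  exact D_mul (D_mul hg hg) (D_mul0 (D_mul0 (D_half h2 (D_M hM)) (Dg h2 _ _)) (D_int _))

theorem B_bound (h2 : p ≠ 2) (hM : 2 * K + 1 = p ^ (s + 1)) {N : ℕ} (hN : K ≤ N)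
    (hN2 : N ≤ 2 * K) (ha : D p (s + 1) (rise (1 / 2) (N + 1) / (N.factorial : ℚ))) :
    D p (s + 3) (B N - (-1) ^ K * (2 * (K : ℚ) + 1)) := by
  rw [B_eq, wz_total N K]
  have h1 : ∑ n ∈ range (N + 1), F n K = F K K + ∑ n ∈ (range (N + 1)).erase K, F n K := by
    exact (Finset.add_sum_erase (range (N + 1)) (fun n => F n K)
      (by rw [mem_range]; omega)).symm
  have h3 : D p (s + 3) (∑ n ∈ (range (N + 1)).erase K, F n K) := by
    apply D_sum
    intro n hn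
    rw [mem_erase, mem_range] at hn
    rcases lt_or_gt_of_ne hn.1 with h | h
    · rw [F_of_lt h]; exact D_zero _
    · exact F_bound h2 hM h (by omega)
  have h4 : D p (s + 3) (∑ k ∈ range K, G N k) := by
    apply D_sum
    intro k hk
    rw [mem_range] at hk
    exact G_bound h2 hM hk ha hN hN2
  have h5 := F_KK_bound (p := p) h2 hM
  rw [h1]
  have e : F K K + ∑ n ∈ (range (N + 1)).erase K, F n K + ∑ k ∈ range K, G N k
      - (-1) ^ K * (2 * (K : ℚ) + 1)
      = (F K K - (-1) ^ K * (2 * (K : ℚ) + 1)) + (∑ n ∈ (range (N + 1)).erase K, F n K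
        + ∑ k ∈ range K, G N k) := by ring
  rw [e]
  exact D_add h5 (D_add h3 h4)

/-! ### Assembly -/

/-- the boundary term `(N+1)^3 t_{N+1}` -/
def U (N : ℕ) : ℚ := ((N : ℚ) + 1) ^ 3 * t (N + 1)

theorem g_K1 (h2 : p ≠ 2) (hM : 2 * K + 1 = p ^ (s + 1)) : D p (s + 1) (g (K + 1) (1 / 2)) := by
  have h1 := a_bound1 (p := p) h2 hM
  have h3 := D_div h1 (not_dvd_K1 (p := p) hM)
  convert h3 using 1
  simp only [g]
  rw [Nat.factorial_succ]
  push_cast
  have := fact_ne K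
  field_simp

theorem U1 (h2 : p ≠ 2) (hM : 2 * K + 1 = p ^ (s + 1)) : D p (s + 3) (U (K + 1)) := by
  have h1 := t_succ (K + 1)
  have h3 := g_t (K + 1)
  have e : U (K + 1) = g (K + 1) (1 / 2) * g (K + 1) (1 / 2) * g (K + 1) (1 / 2)
      * (((-1) ^ (K + 1) : ℤ) : ℚ) / ((2 : ℤ) : ℚ) / ((2 : ℤ) : ℚ) / ((2 : ℤ) : ℚ) := by
    simp only [U]
    rw [h1]
    push_cast at h3 ⊢
    linear_combination (-1 / 8 : ℚ) * h3
  rw [e]
  have h4 := g_K1 (p := p) h2 hM
  have hd := not_dvd_two (p := p) h2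
  apply D_div _ hd
  apply D_div _ hd
  apply D_div _ hd
  exact D_mono (by omega) (D_mul0 (D_mul (D_mul h4 h4) h4) (D_int _))

theorem U2 (h2 : p ≠ 2) (hM : 2 * K + 1 = p ^ (s + 1)) : D p (s + 3) (U (2 * K)) := by
  have h3 := g_t (2 * K + 1)
  have hnd : ¬ (p : ℤ) ∣ (2 * (2 * (K : ℤ) + 1) - 1) := by
    intro h
    have h1 : (p : ℤ) ∣ 2 * K + 1 := by
      have : (2 * (K : ℤ) + 1) = (p : ℤ) ^ (s + 1) := by exact_mod_cast hM
      rw [this, pow_succ]; exact dvd_mul_left _ _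
    have h3 : (p : ℤ) ∣ 1 := by
      have h4 := dvd_sub (h1.mul_left 2) h
      have e : 2 * (2 * (K : ℤ) + 1) - (2 * (2 * (K : ℤ) + 1) - 1) = 1 := by ring
      rwa [e] at h4
    exact (pprime (p := p)).not_isUnit (isUnit_of_dvd_one h3)
  have hne := vne (p := p) hnd
  have e : U (2 * K) = (2 * (K : ℚ) + 1) * (2 * (K : ℚ) + 1) * (2 * (K : ℚ) + 1)
      * (g (2 * K + 1) (1 / 2) ^ 3 * (((-1) ^ (2 * K) : ℤ) : ℚ))
      / ((2 * (2 * (K : ℤ) + 1) - 1 : ℤ) : ℚ) / ((2 * (2 * (K : ℤ) + 1) - 1 : ℤ) : ℚ)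
      / ((2 * (2 * (K : ℤ) + 1) - 1 : ℤ) : ℚ) := by
    simp only [U]
    push_cast at h3 hne ⊢
    field_simp
    rw [pow_succ] at h3
    linear_combination h3
  rw [e]
  apply D_div _ hnd
  apply D_div _ hnd
  apply D_div _ hnd
  have h4 := D_M (p := p) hM
  exact D_mono (by omega) (D_mul0 (D_mul (D_mul h4 h4) h4)
    (D_mul0 (D_powr (Dg_half h2 _) 3) (D_int _)))

theorem B_bound1 (h2 : p ≠ 2) (hM : 2 * K + 1 = p ^ (s + 1)) :
    D p (s + 3) (B (K + 1) - (-1) ^ K * (2 * (K : ℚ) + 1)) := by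
  have h1 := B_bound (p := p) h2 hM le_rfl (by omega) (a_bound1 h2 hM)
  have h3 := g_K1 (p := p) h2 hM
  have e : B (K + 1) - (-1) ^ K * (2 * (K : ℚ) + 1) = (B K - (-1) ^ K * (2 * (K : ℚ) + 1))
      + g (K + 1) (1 / 2) * g (K + 1) (1 / 2) * g (K + 1) (1 / 2)
        * (((-1) ^ (K + 1) * (4 * ((K + 1 : ℕ) : ℤ) + 1) : ℤ) : ℚ) := by
    rw [B, B, sum_range_succ _ (K + 1)]
    push_cast; ring
  rw [e]
  exact D_add h1 (D_mono (by omega) (D_mul0 (D_mul (D_mul h3 h3) h3) (D_int _)))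

theorem B_bound2 (h2 : p ≠ 2) (hM : 2 * K + 1 = p ^ (s + 1)) :
    D p (s + 3) (B (2 * K) - (-1) ^ K * (2 * (K : ℚ) + 1)) :=
  B_bound (p := p) h2 hM (by omega) le_rfl (a_bound2 h2 hM)

theorem S_final {m : ℕ} {P : Polynomial ℤ} {e : ℤ}
    (h : ∀ x : ℤ, 2 * x ^ m = L P x + 2 * e * x) {N : ℕ} (hM : 2 * K + 1 = p ^ (s + 1))
    (hB : D p (s + 3) (B N - (-1) ^ K * (2 * (K : ℚ) + 1))) (hU : D p (s + 3) (U N)) :
    Cong p (s + 1 + 2) (S m N) (((-e : ℤ) : ℚ) * (p : ℚ) ^ (s + 1) * (-1) ^ K) := by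
  have hM' : (p : ℚ) ^ (s + 1) = 2 * (K : ℚ) + 1 := by exact_mod_cast hM.symm
  have h1 := S_reduce h N
  have h3 := S_one N
  have e1 : S m N - (((-e : ℤ) : ℚ) * (p : ℚ) ^ (s + 1) * (-1) ^ K)
      = ((-e : ℤ) : ℚ) * (B N - (-1) ^ K * (2 * (K : ℚ) + 1))
        + ((16 * e * (N : ℤ) - 32 * P.eval (4 * (N : ℤ) + 1) : ℤ) : ℚ) * U N := by
    rw [h1, h3, hM']
    simp only [U]
    push_cast; ring
  have hD : D p (s + 1 + 2) (S m N - (((-e : ℤ) : ℚ) * (p : ℚ) ^ (s + 1) * (-1) ^ K)) := by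
    rw [e1]
    exact D_add (D_mul0' (D_int _) hB) (D_mul0' (D_int _) hU)
  exact D_to_val hD

end bounds

theorem sign_aux (a r : ℕ) : ∃ K : ℕ, (2 * a + 1) ^ r = 2 * K + 1 ∧
    (-1 : ℚ) ^ K = (-1) ^ (a * r) := by
  induction r with
  | zero => exact ⟨0, by simp, by simp⟩
  | succ r ih =>
    obtain ⟨K, h1, h2⟩ := ih
    refine ⟨2 * K * a + K + a, by rw [pow_succ, h1]; ring, ?_⟩
    rw [show a * (r + 1) = a * r + a by ring, pow_add, pow_add, pow_add, h2,
      show 2 * K * a = 2 * (K * a) by ring, pow_mul]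
    simp

theorem works_of_reduce {m : ℕ} {P : Polynomial ℤ} {e : ℤ}
    (h : ∀ x : ℤ, 2 * x ^ m = L P x + 2 * e * x) : Works m (-e) := by
  intro p hpr hp2 r hr
  have : Fact p.Prime := ⟨hpr⟩
  obtain ⟨s, rfl⟩ := Nat.exists_eq_add_of_le' hr
  obtain ⟨a, ha⟩ := hpr.odd_of_ne_two hp2
  obtain ⟨K, hK, hs⟩ := sign_aux a (s + 1)
  rw [← ha] at hK
  have hM : 2 * K + 1 = p ^ (s + 1) := hK.symm
  have e1 : (p ^ (s + 1) + 1) / 2 = K + 1 := by omega
  have e2 : p ^ (s + 1) - 1 = 2 * K := by omega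
  have e3 : (p - 1) * (s + 1) / 2 = a * (s + 1) := by
    rw [ha, show 2 * a + 1 - 1 = 2 * a by omega, mul_assoc]
    omega
  rw [e1, e2, e3, ← hs]
  exact ⟨S_final h hM (B_bound1 hp2 hM) (U1 hp2 hM),
    S_final h hM (B_bound2 hp2 hM) (U2 hp2 hM)⟩

theorem works (m : ℕ) (hm : Odd m) : ∃ c : ℤ, Works m c := by
  obtain ⟨j, rfl⟩ := hm
  obtain ⟨P, e, h⟩ := reduce j
  exact ⟨-e, works_of_reduce h⟩

open Polynomial in
/-- **Answer to Q1 of MP_638395_nt: yes**, with the conjectured constants. -/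
theorem result :
    (∀ m : ℕ, Odd m → ∃ c : ℤ, Works m c) ∧
    Works 1 (-1) ∧ Works 3 3 ∧ Works 5 23 ∧ Works 7 (-5) ∧ Works 9 1647 ∧ Works 11 (-96973) := by
  refine ⟨works, ?_, ?_, ?_, ?_, ?_, ?_⟩
  · exact works_of_reduce (m := 1) (P := 0) (e := 1) (fun x => by simp [L])
  · exact works_of_reduce (m := 3) (P := 1) (e := -3) (fun x => by simp [L]; ring)
  · exact works_of_reduce (m := 5) (P := X ^ 2 + C 5) (e := -23) (fun x => by
      simp only [L, eval_add, eval_pow, eval_X, eval_C]; ring)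
  · exact works_of_reduce (m := 7) (P := X ^ 4 + C (-3) * X ^ 2 + C 1) (e := 5) (fun x => by
      simp only [L, eval_add, eval_mul, eval_pow, eval_X, eval_C]; ring)
  · exact works_of_reduce (m := 9) (P := X ^ 6 + C (-27) * X ^ 4 + C 153 * X ^ 2 + C 285)
      (e := -1647) (fun x => by
      simp only [L, eval_add, eval_mul, eval_pow, eval_X, eval_C]; ring)
  · exact works_of_reduce (m := 11) (P := X ^ 8 + C (-67) * X ^ 6 + C 1713 * X ^ 4 + C (-9291) * X ^ 2
      + C (-16599)) (e := 96973) (fun x => by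
      simp only [L, eval_add, eval_mul, eval_pow, eval_X, eval_C]; ring)

end Pool.Agent.Results.MP_638395_nt.AllOddExponents
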